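import Pool.Agent.L0h73.AP.Count
import Pool.Agent.L0h73.LT.Code

set_option autoImplicit false

/-! # The counting argument -/

namespace Pool.Agent.L0h73.AP

open Finset Pool.Agent.TH697.Form.MinPlus
open Pool.Agent.L0h73.LT (chain wcoding sum_card_pow pow_le_three thr_eq FewSub)

variable {n s : ℕ}

theorem val_eq (C : Circuit n s) (x : ∀ i, Item n i) (j : Fin s) :
    C.val x j = decide ((C.gate j).θ (x none) < ∑ i, (C.gate j).part i (x (some i)) +
      ∑ i : Fin s, if i < j ∧ C.val x i = true then C.wt j i else 0) := by
  rw [Circuit.val]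
  congr 3
  apply sum_congr rfl
  intro i _
  by_cases h : i < j
  · simp [h]
  · simp [h]

theorem val_bottom (C : Circuit n s) (x : ∀ i, Item n i) (j : Fin s) (h : C.Bottom j) :
    C.val x j = (C.gate j).eval x := by
  rw [val_eq]
  unfold Test.eval
  congr 2
  have h1 : ∑ i : Fin s, (if i < j ∧ C.val x i = true then C.wt j i else 0) = 0 := by
    apply sum_eq_zero
    intro i _
    split_ifs with h2
    · exact h i h2.1
    · rfl
  rw [h1, add_zero]

/-- the possible values of the gates in `A` as functions of the live number -/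
def IsVec (C : Circuit n s) (i₀ : Fin n) (A : Finset (Fin s))
    (v : Fin s → Fin n × Fin n → Bool) : Prop :=
  (∀ j, j ∉ A → v j = fun _ => false) ∧ ∀ j ∈ A, ∃ c : ℝ, v j = fun y : Fin n × Fin n => decide (c <
    (C.gate j).part i₀ (qu y) + ∑ i, if i < j ∧ i ∈ A ∧ v i y = true then C.wt j i else 0)

open Classical in
theorem card_vec (C : Circuit n s) (i₀ : Fin n) (A : Finset (Fin s)) :
    (univ.filter (IsVec C i₀ A)).card ≤ (n * n + 1) ^ A.card := by
  have hinj : Set.InjOn (fun v : Fin s → Fin n × Fin n → Bool =>
      (fun j => (univ.filter (fun y => v j y = true)).card))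
      (univ.filter (IsVec C i₀ A) : Finset _) := by
    intro v hv v' hv' heq
    rw [mem_coe, mem_filter] at hv hv'
    obtain ⟨-, hv1, hv2⟩ := hv
    obtain ⟨-, hv1', hv2'⟩ := hv'
    have key : ∀ m : ℕ, ∀ j : Fin s, j.val = m → v j = v' j := by
      intro m
      induction m using Nat.strong_induction_on with
      | _ m ih =>
        intro j hj
        by_cases hA : j ∈ A
        · obtain ⟨c, hc⟩ := hv2 j hA
          obtain ⟨c', hc'⟩ := hv2' j hA
          have e : ∀ y : Fin n × Fin n, (∑ i, if i < j ∧ i ∈ A ∧ v i y = true then C.wt j i else 0) =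
              ∑ i, if i < j ∧ i ∈ A ∧ v' i y = true then C.wt j i else 0 := by
            intro y
            apply sum_congr rfl
            intro i _
            by_cases h : i < j
            · rw [ih i.val (by have : i.val < j.val := h; omega) i rfl]
            · simp [h]
          have hc2 : v j = fun y : Fin n × Fin n => decide (c < (C.gate j).part i₀ (qu y) +
              ∑ i, if i < j ∧ i ∈ A ∧ v' i y = true then C.wt j i else 0) := by
            rw [hc]
            funext y
            rw [e y]
          have hcard := congrFun heq j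
          simp only at hcard
          rw [hc2, hc'] at hcard
          rw [hc2, hc']
          exact thr_eq _ c c' hcard
        · rw [hv1 j hA, hv1' j hA]
    funext j
    exact key _ j rfl
  have hmaps : ∀ v ∈ univ.filter (IsVec C i₀ A),
      (fun j => (univ.filter (fun y => v j y = true)).card) ∈
        Fintype.piFinset (fun j => if j ∈ A then range (n * n + 1) else {0}) := by
    intro v hv
    rw [mem_filter] at hv
    rw [Fintype.mem_piFinset]
    intro j
    by_cases hA : j ∈ A
    · simp only [hA, if_true, mem_range]
      have h1 := card_le_univ (univ.filter (fun y => v j y = true))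
      rw [Fintype.card_prod, Fintype.card_fin] at h1
      omega
    · simp only [hA, if_false, mem_singleton]
      rw [hv.2.1 j hA]
      simp
  refine (card_le_card_of_injOn _ hmaps hinj).trans ?_
  rw [Fintype.card_piFinset]
  calc ∏ t : Fin s, (if t ∈ A then range (n * n + 1) else {0}).card
      ≤ ∏ t : Fin s, (if t ∈ A then n * n + 1 else 1) := by
        apply Finset.prod_le_prod'
        intro t _
        split_ifs with h
        · rw [card_range]
        · simp
    _ = (n * n + 1) ^ A.card := by
        rw [prod_ite, prod_const, prod_const_one, mul_one]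
        congr 2
        ext t; simp

/-- the gate has wires from other gates, or it depends on the live number -/
def Live (C : Circuit n s) (z : Fin n × Fin n → Bool) (i₀ : Fin n) (ω : Om n)
    (j : Fin s) : Prop :=
  ¬ C.Bottom j ∨ Alive (C.gate j) z i₀ ω

open Classical in
/-- the inequality for a fixed place of the live number and fixed junk numbers -/
theorem fixed (P : Circuit n s) {D : ℕ} (hD : 1 ≤ D) (hP : FewSub D P.top) (i₀ : Fin n)
    (ω : Om n) :
    ((n * n : ℕ) : ℝ) * Real.log (4 / 3) ≤ Real.log (3 * D) +
      (∑ z : Fin n × Fin n → Bool,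
        (Real.log 2 * ((univ.filter (fun y => P.eval (inp z i₀ ω y) ≠ z y)).card : ℝ) +
        Real.log (((s : ℝ) + 1) * D * ((n * n : ℕ) + 1)) *
          ((univ.filter (fun t => Live P z i₀ ω t)).card : ℝ))) / 2 ^ (n * n) := by
  choose S hS1 hS2 using hP
  set W : ℝ := ((s : ℝ) + 1) * D * ((n * n : ℕ) + 1) with hW
  have hD' : (1 : ℝ) ≤ D := by exact_mod_cast hD
  have h2k : (1 : ℝ) ≤ ((n * n : ℕ) : ℝ) + 1 := by
    have : (0 : ℝ) ≤ ((n * n : ℕ) : ℝ) := Nat.cast_nonneg _
    linarith
  have hs1 : (1 : ℝ) ≤ (s : ℝ) + 1 := by
    have : (0 : ℝ) ≤ (s : ℝ) := Nat.cast_nonneg _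
    linarith
  have hW1 : 1 ≤ W := by
    rw [hW]
    exact one_le_mul_of_one_le_of_one_le (one_le_mul_of_one_le_of_one_le hs1 hD') h2k
  set F : Finset (Fin s) → Finset (Fin n × Fin n → Bool) := fun A =>
    (S A ×ˢ univ.filter (IsVec P i₀ A)).image
      (fun q => fun y => q.1 (fun t => q.2 t y)) with hF
  have hFcard : ∀ A, ((F A).card : ℝ) ≤ (D : ℝ) ^ (A.card + 1) * (((n * n : ℕ) : ℝ) + 1) ^ A.card := by
    intro A
    have h1 : (F A).card ≤ D ^ (A.card + 1) * (n * n + 1) ^ A.card := by
      rw [hF]
      refine card_image_le.trans ?_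
      rw [card_product]
      exact Nat.mul_le_mul (hS1 A) (card_vec P i₀ A)
    exact_mod_cast h1
  have hFsum : ∑ A : Finset (Fin s), ((F A).card : ℝ) * (1 / W) ^ A.card ≤ 3 * D := by
    calc ∑ A : Finset (Fin s), ((F A).card : ℝ) * (1 / W) ^ A.card
        ≤ ∑ A : Finset (Fin s), (D : ℝ) * (1 / ((s : ℝ) + 1)) ^ A.card := by
          apply sum_le_sum
          intro A _
          calc ((F A).card : ℝ) * (1 / W) ^ A.card
              ≤ ((D : ℝ) ^ (A.card + 1) * (((n * n : ℕ) : ℝ) + 1) ^ A.card) * (1 / W) ^ A.card :=
                mul_le_mul_of_nonneg_right (hFcard A) (by positivity)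
            _ = (D : ℝ) * (D * (((n * n : ℕ) : ℝ) + 1) * (1 / W)) ^ A.card := by
                rw [mul_pow, mul_pow, pow_succ]; ring
            _ = (D : ℝ) * (1 / ((s : ℝ) + 1)) ^ A.card := by
                congr 2
                rw [hW]
                field_simp
      _ = (D : ℝ) * (1 + 1 / ((s : ℝ) + 1)) ^ s := by rw [← mul_sum, sum_card_pow]
      _ ≤ D * 3 := mul_le_mul_of_nonneg_left (pow_le_three s) (by positivity)
      _ = 3 * D := by ring
  have h := wcoding W (3 * D) hW1 (by positivity) F hFsum
    (fun z => univ.filter (fun t => Live P z i₀ ω t))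
    (fun z => fun y => P.eval (inp z i₀ ω y)) (by
      intro z
      set A := univ.filter (fun t => Live P z i₀ ω t) with hA
      set y₀ : Fin n × Fin n := (i₀, i₀) with hy₀
      set ρ : Fin s → Bool := fun t => P.val (inp z i₀ ω y₀) t with hρ
      have hdead : ∀ t, t ∉ A → ∀ y, P.val (inp z i₀ ω y) t = ρ t := by
        intro t ht y
        have h1 : ¬ Live P z i₀ ω t := fun h => ht (by rw [hA, mem_filter]; exact ⟨mem_univ _, h⟩)
        unfold Live at h1
        push Not at h1
        rw [hρ]
        simp only
        rw [val_bottom P _ t h1.1, val_bottom P _ t h1.1]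
        by_contra hne
        exact h1.2 ⟨y, y₀, hne⟩
      rw [hF]
      simp only
      rw [mem_image]
      refine ⟨(fun u => P.top (bm z) (A.piecewise u ρ),
        fun t => if t ∈ A then (fun y => P.val (inp z i₀ ω y) t) else fun _ => false),
        ?_, ?_⟩
      · rw [mem_product]
        refine ⟨hS2 A (bm z) ρ, ?_⟩
        rw [mem_filter]
        refine ⟨mem_univ _, fun t ht => by simp only [ht, if_false], fun t ht => ?_⟩
        refine ⟨(P.gate t).θ (bm z) - ∑ i, jf (P.gate t) i₀ ω.1 i (ω.2 i) -
          ∑ i, (if i < t ∧ i ∉ A ∧ ρ i = true then P.wt t i else 0), ?_⟩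
        simp only [ht, if_true]
        funext y
        rw [val_eq, sum_inp]
        have e1 : (inp z i₀ ω y none : Fin n → Fin n → ℕ) = bm z := rfl
        rw [e1]
        have e2 : ∑ i : Fin s, (if i < t ∧ P.val (inp z i₀ ω y) i = true then P.wt t i else 0) =
            ∑ i, (if i < t ∧ i ∈ A ∧ (if i ∈ A then (fun y => P.val (inp z i₀ ω y) i)
              else fun _ => false) y = true then P.wt t i else 0) +
            ∑ i, (if i < t ∧ i ∉ A ∧ ρ i = true then P.wt t i else 0) := by
          rw [← sum_add_distrib]
          apply sum_congr rfl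
          intro i _
          by_cases h1 : i < t
          · by_cases h2 : i ∈ A
            · simp [h1, h2]
            · rw [hdead i h2 y]
              simp [h1, h2]
          · simp [h1]
        rw [e2]
        apply decide_eq_decide.2
        constructor <;> intro h <;> linarith
      · funext y
        simp only
        unfold Circuit.eval
        have e1 : (inp z i₀ ω y none : Fin n → Fin n → ℕ) = bm z := rfl
        rw [e1]
        congr 1
        funext t
        by_cases ht : t ∈ A
        · rw [piecewise_eq_of_mem _ _ _ ht]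
          simp only [ht, if_true]
        · rw [piecewise_eq_of_notMem _ _ _ ht, hdead t ht y])
  rw [Fintype.card_prod, Fintype.card_fin] at h
  exact h

end Pool.Agent.L0h73.AP
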