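import Pool.Agent.L0h73.LT.Defs
import Pool.Agent.TH697.Form.MinPlusDefs

set_option autoImplicit false

/-! # Shortest paths: circuits of gates which add functions of single weights -/

namespace Pool.Agent.L0h73.AP

open Finset Pool.Agent.TH697.Form.MinPlus

/-- A test: the inequality `θ B < ∑ i k, φ i k (A i k) + ∑ i j, ψ i j (C i j)`, where `A i k` and
`C i j` are the weights of the edges at the vertices `i` of the first layer, and `B` is the matrix of
the other weights. The functions `φ i k`, `ψ i j` and `θ` are arbitrary. -/
structure Test (n : ℕ) where
  φ : Fin n → Fin n → ℕ → ℝ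
  ψ : Fin n → Fin n → ℕ → ℝ
  θ : (Fin n → Fin n → ℕ) → ℝ

/-- The part of the sum which comes from the vertex `i`. -/
noncomputable def Test.part {n : ℕ} (T : Test n) (i : Fin n) (w : (Fin n → ℕ) × (Fin n → ℕ)) : ℝ :=
  ∑ k, T.φ i k (w.1 k) + ∑ j, T.ψ i j (w.2 j)

/-- The result of the test. -/
noncomputable def Test.eval {n : ℕ} (T : Test n) (x : ∀ i, Item n i) : Bool :=
  decide (T.θ (x none) < ∑ i, T.part i (x (some i)))

open Classical in
/-- How many vertices `i` of the first layer have an influence on the sum of the test? -/
noncomputable def Test.supp {n : ℕ} (T : Test n) : ℕ :=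
  (univ.filter (fun i => ∃ v w, T.part i v ≠ T.part i w)).card

/-- A circuit with `s` gates. The gate `j` adds functions of single weights `A i k`, `C i j` and the
real weights `wt j i` of the gates `i < j` with the value `true`, and compares the sum with a
threshold, which is an arbitrary function of the matrix `B`. The output of the circuit is a function
of `B` and of the values of the gates. -/
structure Circuit (n s : ℕ) where
  gate : Fin s → Test n
  wt : Fin s → Fin s → ℝ
  top : (Fin n → Fin n → ℕ) → (Fin s → Bool) → Bool

/-- The value of the gate `j`. -/
noncomputable def Circuit.val {n s : ℕ} (C : Circuit n s) (x : ∀ i, Item n i) (j : Fin s) :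
    Bool :=
  decide ((C.gate j).θ (x none) < ∑ i, (C.gate j).part i (x (some i)) +
    ∑ i : Fin s, if h : i < j then (if C.val x i then C.wt j i else 0) else 0)
termination_by j.val
decreasing_by all_goals exact h

/-- The output of the circuit. -/
noncomputable def Circuit.eval {n s : ℕ} (C : Circuit n s) (x : ∀ i, Item n i) : Bool :=
  C.top (x none) (C.val x)

/-- The gate `j` has no wires from other gates. -/
def Circuit.Bottom {n s : ℕ} (C : Circuit n s) (j : Fin s) : Prop := ∀ i, i < j → C.wt j i = 0

open Classical in
/-- The number of the gates with wires from other gates. -/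
noncomputable def Circuit.upper {n s : ℕ} (C : Circuit n s) : ℕ :=
  (univ.filter (fun j => ¬ C.Bottom j)).card

open Classical in
/-- The sum over the gates without wires from other gates of the square root of the number of the
vertices of the first layer which have an influence on the sum of the gate. -/
noncomputable def Circuit.sqrtSupp {n s : ℕ} (C : Circuit n s) : ℝ :=
  ∑ j ∈ univ.filter (fun j => C.Bottom j), √((C.gate j).supp : ℝ)

end Pool.Agent.L0h73.AP
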