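import Pool.Agent.L0h73.AP.Defs

set_option autoImplicit false

/-! # The instances -/

namespace Pool.Agent.L0h73.AP

open Finset Pool.Agent.TH697.Form.MinPlus

/-- the string `z` in the matrix `B` -/
def bm {n : ℕ} (z : Fin n × Fin n → Bool) : Fin n → Fin n → ℕ := fun k j => if z (k, j) then 1 else 2

/-- the question for the bit `y` -/
def qu {n : ℕ} (y : Fin n × Fin n) : (Fin n → ℕ) × (Fin n → ℕ) :=
  (fun k => if k = y.1 then 1 else 2, fun j => if j = y.2 then 3 else 2)

/-- the random bits -/
abbrev Bits (n : ℕ) : Type := (Fin n → Bool) × (Fin n → Bool)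

/-- the junk at the other vertices -/
def junk {n : ℕ} (m : Bool) (v : Bits n) : (Fin n → ℕ) × (Fin n → ℕ) :=
  if m then (fun k => if v.1 k then 1 else 2, fun _ => 2)
  else (fun _ => 2, fun j => if v.2 j then 3 else 2)

/-- the random choices -/
abbrev Om (n : ℕ) : Type := (Fin n → Bool) × (Fin n → Bits n)

/-- the instances -/
def inp {n : ℕ} (z : Fin n × Fin n → Bool) (i₀ : Fin n) (ω : Om n) (y : Fin n × Fin n) :
    ∀ i, Item n i
  | none => bm z
  | some i => if i = i₀ then qu y else junk (ω.1 i) (ω.2 i)

variable {n : ℕ} (z : Fin n × Fin n → Bool) (i₀ : Fin n) (ω : Om n) (y : Fin n × Fin n)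

theorem inp_none : inp z i₀ ω y none = bm z := rfl

theorem inp_some (i : Fin n) :
    inp z i₀ ω y (some i) = if i = i₀ then qu y else junk (ω.1 i) (ω.2 i) := rfl

theorem inRange_inp : InRange n 3 (inp z i₀ ω y) := by
  refine ⟨fun k j => ?_, fun i k => ?_⟩
  · rw [inp_none]
    unfold bm
    split_ifs <;> omega
  · rw [inp_some]
    split_ifs with h
    · unfold qu
      dsimp only
      split_ifs <;> omega
    · unfold junk
      split_ifs
      · dsimp only
        split_ifs <;> omega
      · dsimp only
        split_ifs <;> omega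

theorem shortcut_inp : shortcut n (inp z i₀ ω y) = z y := by
  unfold shortcut
  rw [Bool.eq_iff_iff, decide_eq_true_iff]
  constructor
  · rintro ⟨i, k, j, h⟩
    rw [inp_some, inp_none] at h
    unfold bm at h
    by_cases hi : i = i₀
    · rw [if_pos hi] at h
      unfold qu at h
      dsimp only at h
      have hk : k = y.1 := by
        by_contra hk
        rw [if_neg hk] at h
        split_ifs at h <;> omega
      have hj : j = y.2 := by
        by_contra hj
        rw [if_neg hj] at h
        split_ifs at h <;> omega
      rw [if_pos hk, if_pos hj] at h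
      have hz : z (k, j) = true := by
        by_contra hz
        rw [if_neg hz] at h
        omega
      rw [hk, hj] at hz
      exact hz
    · rw [if_neg hi] at h
      unfold junk at h
      exfalso
      split_ifs at h <;> (try dsimp only at h) <;> (try split_ifs at h) <;> omega
  · intro hz
    refine ⟨i₀, y.1, y.2, ?_⟩
    rw [inp_some, inp_none, if_pos rfl]
    unfold qu bm
    simp [hz]

end Pool.Agent.L0h73.AP
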